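import Mathlib
import Pool.Agent.W543.MO.Parts

/-!
# The Lefschetz number of a nilpotent correspondence is zero
-/

set_option autoImplicit false

open CategoryTheory AlgebraicGeometry

namespace Pool.Agent.W366.MO

open Pool.Agent.H914 Pool.Agent.H914.VarClass Pool.Agent.H914.VarClass.Obj Pool.Agent.W492.BB
  Pool.Agent.W550.Corr Pool.Agent.W484.CK Pool.Agent.W543.MO

section linear

variable {K V W : Type} [Field K] [Ring V] [Algebra K V] [Ring W] [Algebra K W]

/-- The trace form of an adjoint pair. -/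
theorem exists_nu [Module.Finite K V] (tV : V →ₗ[K] K)
    (nd : ∀ a : V, (∀ b, tV (a * b) = 0) → a = 0) :
    ∃ nu : V →ₗ[K] V, ∀ a b : V, tV (nu b * a) = tV (a * b) := by
  have hV : Module.Finite K (Module.Dual K V) := inferInstance
  let Bl : V →ₗ[K] Module.Dual K V :=
    LinearMap.mk₂ K (fun a b => tV (a * b))
      (fun a a' b => by simp only [add_mul, map_add])
      (fun c a b => by simp only [smul_mul_assoc, map_smul])
      (fun a b b' => by simp only [mul_add, map_add])
      (fun c a b => by simp only [mul_smul_comm, map_smul])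
  let Br : V →ₗ[K] Module.Dual K V :=
    LinearMap.mk₂ K (fun a b => tV (b * a))
      (fun a a' b => by simp only [mul_add, map_add])
      (fun c a b => by simp only [mul_smul_comm, map_smul])
      (fun a b b' => by simp only [add_mul, map_add])
      (fun c a b => by simp only [smul_mul_assoc, map_smul])
  have hBl : ∀ a b, Bl a b = tV (a * b) := fun a b => rfl
  have hBr : ∀ a b, Br a b = tV (b * a) := fun a b => rfl
  have hinj : Function.Injective Bl := by
    rw [injective_iff_map_eq_zero]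
    intro a ha
    apply nd
    intro b
    rw [← hBl, ha, LinearMap.zero_apply]
  have hrank : Module.finrank K V = Module.finrank K (Module.Dual K V) :=
    Subspace.dual_finrank_eq.symm
  let e : V ≃ₗ[K] Module.Dual K V := LinearEquiv.ofInjectiveOfFinrankEq Bl hinj hrank
  refine ⟨e.symm.toLinearMap ∘ₗ Br, fun a b => ?_⟩
  have h1 : Bl (e.symm (Br b)) = Br b := e.apply_symm_apply (Br b)
  have h2 : Bl (e.symm (Br b)) a = Br b a := by rw [h1]
  rw [hBl, hBr] at h2
  exact h2

/-- The trace of an endomorphism in terms of a decomposition of the diagonal. -/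
theorem trace_eq [Module.Finite K V] (theta : V →ₗ[K] K) {N : ℕ} (a b : Fin N → V)
    (h : ∀ x, x = ∑ i, theta (x * a i) • b i) (psi : V →ₗ[K] V) :
    LinearMap.trace K V psi = ∑ i, theta (psi (b i) * a i) := by
  have h1 : psi = ∑ i, (theta ∘ₗ LinearMap.mulRight K (a i)).smulRight (psi (b i)) := by
    ext x
    rw [LinearMap.sum_apply]
    conv_lhs => rw [h x]
    rw [map_sum]
    refine Finset.sum_congr rfl fun i _ => ?_
    rw [map_smul, LinearMap.smulRight_apply, LinearMap.comp_apply, LinearMap.mulRight_apply]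
  conv_lhs => rw [h1]
  rw [map_sum]
  refine Finset.sum_congr rfl fun i _ => ?_
  rw [LinearMap.trace_smulRight, LinearMap.comp_apply, LinearMap.mulRight_apply]

theorem linear_core [Module.Finite K V] (p1 p2 : V →ₐ[K] W) (P1 P2 : W →ₗ[K] V)
    (tV : V →ₗ[K] K) (tW : W →ₗ[K] K) (hP1 : ∀ w, tV (P1 w) = tW w)
    (hP2 : ∀ w, tV (P2 w) = tW w) (r1 : ∀ w v, P1 (w * p1 v) = P1 w * v)
    (l1 : ∀ w v, P1 (p1 v * w) = v * P1 w) (r2 : ∀ w v, P2 (w * p2 v) = P2 w * v)
    (l2 : ∀ w v, P2 (p2 v * w) = v * P2 w) (nd : ∀ a : V, (∀ b, tV (a * b) = 0) → a = 0)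
    (theta : V →ₗ[K] K) (tau : K) (hθ : ∀ c, P2 (p1 c) = theta c • (1 : V))
    (hτ : ∀ c, tV c = tau * theta c) (z D : W) (hz : ∀ w, z * w = w * z)
    (hD : ∀ w, D * w = w * D) (hact : ∀ x, P2 (D * p1 x) = x) (n : ℕ) (phi : V →ₗ[K] V)
    (hphi : ∀ x, phi x = P2 (z * p1 x)) (hn : ∀ a, (phi ^ n) a = 0) (N : ℕ) (a b : Fin N → V)
    (hDs : D = ∑ i, p1 (a i) * p2 (b i)) : tW (z * D) = 0 := by
  obtain ⟨nu, hnu⟩ := exists_nu tV nd
  let phit : V →ₗ[K] V := P1 ∘ₗ LinearMap.mulLeft K z ∘ₗ p2.toLinearMap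
  have hphit : ∀ x, phit x = P1 (z * p2 x) := fun x => rfl
  -- adjunctions
  have had0 : ∀ x c, tV (phi x * c) = tW (z * (p1 x * p2 c)) := by
    intro x c
    rw [hphi, ← r2, hP2, mul_assoc]
  have had : ∀ x c, tV (phi x * c) = tV (x * phit c) := by
    intro x c
    rw [had0, hphit, ← l1, hP1, ← mul_assoc, hz, ← mul_assoc]
  have had' : ∀ c x, tV (phit c * x) = tV (c * phi x) := by
    intro c x
    rw [hphi, hphit, ← r1, ← l2, hP1, hP2]
    congr 1
    rw [← mul_assoc (p2 c), ← hz (p2 c)]
  -- nu commutes with phit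
  have hcomm : Commute nu phit := by
    apply LinearMap.ext
    intro c
    change nu (phit c) = phit (nu c)
    rw [← sub_eq_zero]
    apply nd
    intro x
    rw [sub_mul, map_sub, hnu, had', hnu, ← had, sub_self]
  -- phit is nilpotent
  have hpow : ∀ (m : ℕ) (c x : V), tV ((phit ^ m) c * x) = tV (c * (phi ^ m) x) := by
    intro m
    induction m with
    | zero => intro c x; rfl
    | succ m ih =>
      intro c x
      rw [pow_succ' phit, Module.End.mul_apply, had', ih, pow_succ phi, Module.End.mul_apply]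
  have hnil : phit ^ n = 0 := by
    apply LinearMap.ext
    intro c
    rw [LinearMap.zero_apply]
    apply nd
    intro x
    rw [hpow, hn, mul_zero, map_zero]
  have hnil2 : IsNilpotent (nu ∘ₗ phit) := by
    refine ⟨n, ?_⟩
    have : (nu * phit) ^ n = 0 := by rw [hcomm.mul_pow, hnil, mul_zero]
    exact this
  have htr : LinearMap.trace K V (nu ∘ₗ phit) = 0 :=
    (LinearMap.isNilpotent_trace_of_isNilpotent hnil2).eq_zero
  have hx : ∀ x, x = ∑ i, theta (x * a i) • b i := by
    intro x
    conv_lhs => rw [← hact x, hD, hDs, Finset.mul_sum, map_sum]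
    refine Finset.sum_congr rfl fun i _ => ?_
    rw [← mul_assoc, ← map_mul, r2, hθ, smul_mul_assoc, one_mul]
  rw [trace_eq theta a b hx] at htr
  rw [hDs, Finset.mul_sum, map_sum]
  calc ∑ i, tW (z * (p1 (a i) * p2 (b i)))
      = ∑ i, tau * theta ((nu ∘ₗ phit) (b i) * a i) := by
        refine Finset.sum_congr rfl fun i _ => ?_
        rw [← had0, had, ← hnu, hτ]
        rfl
    _ = 0 := by rw [← Finset.mul_sum, htr, mul_zero]

end linear

/-- PART TRNIL. -/
theorem t_TRNIL : Pool.Agent.W543.MO.TRNIL_stmt := by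
  intro k _ 𝒱 C hC hCI K _ _ H hH hst X z n hn
  have hfin : Module.Finite K (H.A X) := hst.finite X
  have hnt : Nontrivial (H.A X) := hst.nontrivial X
  set T := H.toTheoryData with hT
  have hone : (1 : H.A X) ≠ 0 := one_ne_zero
  -- the degree
  have hdeg : ∀ c : H.A X, ∃ q : K, H.push (snd X X) (H.pull (fst X X) c) = q • (1 : H.A X) := by
    intro c
    have hc : c ∈ (⨆ i, H.gr X i : Submodule K (H.A X)) := by
      rw [(T.isInternal X).submodule_iSup_eq_top]
      exact Submodule.mem_top
    induction hc using Submodule.iSup_induction' with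
    | mem i c hc =>
      have h1 := T.push_mem (snd X X) (T.pull_mem (fst X X) hc)
      rw [Obj.dim_prod] at h1
      push_cast at h1
      have h2 : i + 2 * ((X.dim : ℤ) - (X.dim + X.dim)) = i - 2 * X.dim := by ring
      rw [h2] at h1
      rcases lt_trichotomy i (2 * (X.dim : ℤ)) with h | h | h
      · rw [T.gr_neg X _ (by omega), Submodule.mem_bot] at h1
        exact ⟨0, by rw [zero_smul]; exact h1⟩
      · rw [h, sub_self] at h1
        exact hst.coh_zero X _ h1
      · refine ⟨0, ?_⟩
        rw [hst.coh_top X i c h hc, map_zero, map_zero, zero_smul]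
    | zero => exact ⟨0, by rw [map_zero, map_zero, zero_smul]⟩
    | add c c' _ _ h h' =>
      obtain ⟨q, hq⟩ := h
      obtain ⟨q', hq'⟩ := h'
      exact ⟨q + q', by rw [map_add, map_add, hq, hq', add_smul]⟩
  obtain ⟨lam, hlam⟩ := LinearMap.exists_leftInverse_of_injective
    (LinearMap.toSpanSingleton K (H.A X) 1) (LinearMap.ker_toSpanSingleton K hone)
  have hlam1 : lam 1 = 1 := by
    have h := LinearMap.congr_fun hlam (1 : K)
    rw [LinearMap.comp_apply, LinearMap.toSpanSingleton_apply, one_smul] at h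
    exact h
  let theta : H.A X →ₗ[K] K := lam ∘ₗ H.push (snd X X) ∘ₗ (H.pull (fst X X)).toLinearMap
  have hθ' : ∀ c, theta c = lam (H.push (snd X X) (H.pull (fst X X) c)) := fun c => rfl
  have hθ : ∀ c, H.push (snd X X) (H.pull (fst X X) c) = theta c • (1 : H.A X) := by
    intro c
    obtain ⟨q, hq⟩ := hdeg c
    rw [hθ', hq, map_smul, hlam1, smul_eq_mul, mul_one]
  obtain ⟨x0, hx0, hx1, hx2⟩ := exists_deg_one C X
  have hcl1 : H.push (fst X X) (H.pull (snd X X) (H.cl x0)) = 1 := by
    rw [← H.cl_pull, ← H.cl_push, hx1 X, map_one]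
  have hcl2 : H.push (snd X X) (H.pull (fst X X) (H.cl x0)) = 1 := by
    rw [← H.cl_pull, ← H.cl_push, hx2 X, map_one]
  have hτ : ∀ c, H.tr X c = H.tr X (H.cl x0) * theta c := by
    intro c
    have h1 : H.tr X (H.push (snd X X) (H.pull (fst X X) c * H.pull (snd X X) (H.cl x0))) =
        H.tr X (H.push (fst X X) (H.pull (fst X X) c * H.pull (snd X X) (H.cl x0))) := by
      rw [H.tr_push, H.tr_push]
    rw [T.proj_right, T.proj_left, hcl1, hθ, smul_mul_assoc, one_mul, mul_one, map_smul,
      smul_eq_mul] at h1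
    rw [← h1, mul_comm]
  have hdg : H.cl (dg C X) = dg T X := by
    change H.cl (C.push (Obj.lift (𝟙 X) (𝟙 X)) 1) = T.push (Obj.lift (𝟙 X) (𝟙 X)) 1
    rw [H.cl_push, map_one]
  -- Kunneth
  have hspan : H.cl (dg C X) ∈ Submodule.span K
      {c | ∃ (a : H.A X) (b : H.A X), c = H.pull (fst X X) a * H.pull (snd X X) b} := by
    have hle : (⨆ i, H.gr (X.prod X) i : Submodule K (H.A (X.prod X))) ≤ Submodule.span K
        {c | ∃ (a : H.A X) (b : H.A X), c = H.pull (fst X X) a * H.pull (snd X X) b} := by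
      apply iSup_le
      intro m
      refine (H.kunneth X X m).trans (Submodule.span_mono ?_)
      rintro c ⟨l, a, b, _, _, rfl⟩
      exact ⟨a, b, rfl⟩
    apply hle
    rw [(T.isInternal (X.prod X)).submodule_iSup_eq_top]
    exact Submodule.mem_top
  obtain ⟨N, f, g, hfg⟩ := Submodule.mem_span_set'.1 hspan
  choose a b hab using fun i => (g i).2
  have hDs : H.cl (dg C X) = ∑ i, H.pull (fst X X) (f i • a i) * H.pull (snd X X) (b i) := by
    rw [← hfg]
    refine Finset.sum_congr rfl fun i _ => ?_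
    rw [hab i, map_smul, smul_mul_assoc]
  rw [map_mul]
  refine linear_core (H.pull (fst X X)) (H.pull (snd X X)) (H.push (fst X X)) (H.push (snd X X))
    (H.tr X) (H.tr (X.prod X)) (fun w => H.tr_push _ w) (fun w => H.tr_push _ w)
    (fun w v => T.proj_right _ w v) (fun w v => T.proj_left _ w v)
    (fun w v => T.proj_right _ w v) (fun w v => T.proj_left _ w v) (fun a h => H.nondeg a h)
    theta _ hθ hτ (H.cl z) (H.cl (dg C X)) (fun w => H.cl_central z w)
    (fun w => H.cl_central _ w) ?_ n (T.actL (H.cl z)) (fun x => rfl) hn N _ _ hDs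
  intro x
  rw [hdg]
  exact act_dg T x

end Pool.Agent.W366.MO
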