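import Mathlib
import Pool.Agent.W164.MO.Defs

/-! MO-EU and MO-FP. -/

set_option autoImplicit false

namespace Pool.Agent.W366.MO

open Finset Filter Topology Pool.Agent.W164.MO

theorem cm_nonneg {w : ℕ → ℝ} (hw : ∀ p, 0 ≤ w p) (n : ℕ) : 0 ≤ cm w n := by
  unfold cm
  refine List.prod_nonneg ?_
  intro a ha
  obtain ⟨p, -, rfl⟩ := List.mem_map.mp ha
  exact hw p

theorem cm_one (w : ℕ → ℝ) : cm w 1 = 1 := by
  simp [cm]

theorem cm_minFac (w : ℕ → ℝ) {n : ℕ} (hn : 2 ≤ n) :
    cm w n = w n.minFac * cm w (n / n.minFac) := by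
  obtain ⟨k, rfl⟩ := Nat.exists_eq_add_of_le' hn
  unfold cm
  rw [Nat.primeFactorsList_add_two, List.map_cons, List.prod_cons]

theorem eu : S_EU := by
  classical
  intro w M τ hw _ hτ hsum
  set S := ∑ m ∈ Icc 2 M, cm w m / m with hS
  set P := (Icc 2 M).filter Nat.Prime with hP
  have hτ0 : 0 ≤ τ := le_trans (Finset.sum_nonneg fun p _ => div_nonneg (hw p) (Nat.cast_nonneg p))
    hsum
  have hf0 : ∀ m : ℕ, 0 ≤ cm w m / (m : ℝ) := fun m =>
    div_nonneg (cm_nonneg hw m) (Nat.cast_nonneg m)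
  have hS0 : 0 ≤ S := Finset.sum_nonneg fun m _ => hf0 m
  have h1 : ∑ m ∈ Icc 1 M, cm w m / m ≤ 1 + S := by
    have hsub : Icc 1 M ⊆ insert 1 (Icc 2 M) := by
      intro m hm
      rw [mem_Icc] at hm
      rw [mem_insert, mem_Icc]
      omega
    refine (Finset.sum_le_sum_of_subset_of_nonneg hsub fun m _ _ => hf0 m).trans ?_
    rw [Finset.sum_insert (by simp), cm_one, Nat.cast_one, div_one]
  have h2 : S ≤ (∑ p ∈ P, w p / p) * ∑ m ∈ Icc 1 M, cm w m / m := by
    rw [Finset.sum_mul_sum, ← Finset.sum_product']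
    have hmap : ∀ m ∈ Icc 2 M, (m.minFac, m / m.minFac) ∈ P ×ˢ Icc 1 M := by
      intro m hm
      rw [mem_Icc] at hm
      rw [mem_product, hP, mem_filter, mem_Icc, mem_Icc]
      have hp : m.minFac.Prime := Nat.minFac_prime (by omega)
      have hle : m.minFac ≤ m := Nat.minFac_le (by omega)
      exact ⟨⟨⟨hp.two_le, hle.trans hm.2⟩, hp⟩, Nat.div_pos hle hp.pos,
        (Nat.div_le_self _ _).trans hm.2⟩
    have hinj : Set.InjOn (fun m : ℕ => (m.minFac, m / m.minFac)) (Icc 2 M : Finset ℕ) := by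
      intro m _ n _ h
      simp only [Prod.mk.injEq] at h
      rw [← Nat.mul_div_cancel' (Nat.minFac_dvd m), ← Nat.mul_div_cancel' (Nat.minFac_dvd n),
        h.2, h.1]
    have h3 : S = ∑ x ∈ (Icc 2 M).image (fun m : ℕ => (m.minFac, m / m.minFac)),
        w x.1 / x.1 * (cm w x.2 / x.2) := by
      rw [Finset.sum_image hinj, hS]
      refine Finset.sum_congr rfl fun m hm => ?_
      rw [mem_Icc] at hm
      have hp : m.minFac.Prime := Nat.minFac_prime (by omega)
      have hm' : (m : ℝ) = (m.minFac : ℝ) * ((m / m.minFac : ℕ) : ℝ) := by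
        rw [← Nat.cast_mul, Nat.mul_div_cancel' (Nat.minFac_dvd m)]
      show cm w m / (m : ℝ) = w m.minFac / (m.minFac : ℝ) *
        (cm w (m / m.minFac) / ((m / m.minFac : ℕ) : ℝ))
      rw [div_mul_div_comm, ← cm_minFac w hm.1, ← hm']
    rw [h3]
    refine Finset.sum_le_sum_of_subset_of_nonneg ?_ fun x _ _ =>
      mul_nonneg (div_nonneg (hw _) (Nat.cast_nonneg _)) (hf0 _)
    intro x hx
    obtain ⟨m, hm, rfl⟩ := mem_image.mp hx
    exact hmap m hm
  have h4 : S ≤ τ * (1 + S) := h2.trans (mul_le_mul hsum h1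
    (Finset.sum_nonneg fun m _ => hf0 m) hτ0)
  nlinarith

theorem fp : S_FP := by
  intro ι G hG hL
  let c : ℕ → ι → ℝ := fun n => Nat.rec (fun _ => 0) (fun _ c => G c) n
  have hc0 : c 0 = fun _ => 0 := rfl
  have hcs : ∀ n, c (n + 1) = G (c n) := fun n => rfl
  have hb : ∀ n i, |c n i| ≤ 1 := by
    intro n
    induction n with
    | zero => intro i; rw [hc0]; simp
    | succ n ih => intro i; rw [hcs]; exact hG _ ih i
  have hd : ∀ n i, |c n i - c (n + 1) i| ≤ 2 / 2 / 2 ^ n := by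
    intro n
    induction n with
    | zero =>
      intro i
      rw [hc0, zero_sub, abs_neg]
      simpa using hb 1 i
    | succ n ih =>
      intro i
      rw [hcs n, hcs (n + 1)]
      refine (hL _ _ (hb n) (hb (n + 1)) _ (by positivity) ih i).trans (le_of_eq ?_)
      rw [pow_succ]
      field_simp
  have hcau : ∀ i, CauchySeq fun n => c n i := fun i =>
    cauchySeq_of_le_geometric_two fun n => by rw [Real.dist_eq]; exact hd n i
  choose l hl using fun i => cauchySeq_tendsto_of_complete (hcau i)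
  have hlb : ∀ i, |l i| ≤ 1 := fun i => le_of_tendsto ((hl i).abs) (Eventually.of_forall fun n => hb n i)
  have hdist : ∀ n i, |c n i - l i| ≤ 2 / 2 ^ n := by
    intro n i
    have := dist_le_of_le_geometric_two_of_tendsto (fun n => by
      rw [Real.dist_eq]; exact hd n i) (hl i) n
    rwa [Real.dist_eq] at this
  refine ⟨l, hlb, fun i => ?_⟩
  have h1 : ∀ n : ℕ, |G l i - l i| ≤ 3 * (2 / 2 ^ n) := by
    intro n
    have h2 := hL (c n) l (hb n) hlb (2 / 2 ^ n) (by positivity) (hdist n) i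
    have h3 := hdist (n + 1) i
    rw [hcs] at h3
    have h4 : (2 : ℝ) / 2 ^ (n + 1) ≤ 2 / 2 ^ n := by
      refine div_le_div_of_nonneg_left (by norm_num) (by positivity) ?_
      exact pow_le_pow_right₀ (by norm_num) (Nat.le_succ n)
    have h5 : |G l i - l i| ≤ |G l i - G (c n) i| + |G (c n) i - l i| := abs_sub_le _ _ _
    rw [abs_sub_comm (G l i) (G (c n) i)] at h5
    have h6 : (0 : ℝ) ≤ 2 / 2 ^ n := by positivity
    linarith
  have h7 : Tendsto (fun n : ℕ => (3 : ℝ) * (2 / 2 ^ n)) atTop (𝓝 (3 * 0)) := by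
    refine Tendsto.const_mul _ ?_
    have := (tendsto_pow_atTop_nhds_zero_of_lt_one (by norm_num : (0 : ℝ) ≤ 1 / 2)
      (by norm_num : (1 / 2 : ℝ) < 1)).const_mul 2
    rw [mul_zero] at this
    refine this.congr fun n => ?_
    rw [one_div, inv_pow, div_eq_mul_inv]
  rw [mul_zero] at h7
  have h8 : |G l i - l i| ≤ 0 := ge_of_tendsto h7 (Eventually.of_forall h1)
  exact sub_eq_zero.mp (abs_eq_zero.mp (le_antisymm h8 (abs_nonneg _)))

end Pool.Agent.W366.MO
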